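import Pool.Agent.W2helper49.LW.Defs

/-!
# Facts on the smooth step, and the operator `Q` under `z ↦ c z`
-/

set_option autoImplicit false
open scoped ContDiff

namespace Pool.Agent.W2helper85.LW

open Pool.Agent.W2helper49.LW

theorem S_contDiff : ContDiff ℝ ∞ S := Real.smoothTransition.contDiff

theorem dS_contDiff : ContDiff ℝ ∞ dS := (contDiff_infty_iff_deriv.1 S_contDiff).2

theorem S_hasDerivAt (x : ℝ) : HasDerivAt S (dS x) x :=
  ((contDiff_infty_iff_deriv.1 S_contDiff).1 x).hasDerivAt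

theorem dS_zero_left (x : ℝ) (hx : x ≤ 0) : dS x = 0 := by
  apply IsLocalMin.deriv_eq_zero
  refine Filter.Eventually.of_forall fun y => ?_
  show S x ≤ S y
  rw [show S x = 0 from Real.smoothTransition.zero_of_nonpos hx]
  exact Real.smoothTransition.nonneg y

theorem dS_zero_right (x : ℝ) (hx : 1 ≤ x) : dS x = 0 := by
  apply IsLocalMax.deriv_eq_zero
  refine Filter.Eventually.of_forall fun y => ?_
  show S y ≤ S x
  rw [show S x = 1 from Real.smoothTransition.one_of_one_le hx]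
  exact Real.smoothTransition.le_one y

theorem dS_nonneg (x : ℝ) : 0 ≤ dS x := Monotone.deriv_nonneg Real.smoothTransition.monotone

theorem e_hasDerivAt (x : ℝ) (hx : 0 < x) :
    HasDerivAt expNegInvGlue (Real.exp (-x⁻¹) * (x ^ 2)⁻¹) x := by
  have h1 : HasDerivAt (fun y : ℝ => Real.exp (-y⁻¹)) (Real.exp (-x⁻¹) * (x ^ 2)⁻¹) x := by
    have h2 : HasDerivAt (fun y : ℝ => -y⁻¹) ((x ^ 2)⁻¹) x := by
      have := (hasDerivAt_inv hx.ne').fun_neg
      rw [neg_neg] at this
      exact this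
    exact h2.exp
  refine h1.congr_of_eventuallyEq ?_
  filter_upwards [lt_mem_nhds hx] with y hy
  simp [expNegInvGlue, not_le.2 hy]

theorem dS_pos (x : ℝ) (hx : 0 < x) (hx1 : x < 1) : 0 < dS x := by
  have h1 := e_hasDerivAt x hx
  have h2 : HasDerivAt (fun y : ℝ => expNegInvGlue (1 - y))
      (-(Real.exp (-(1 - x)⁻¹) * ((1 - x) ^ 2)⁻¹)) x := by
    have h3 := (e_hasDerivAt (1 - x) (by linarith)).comp x
      ((hasDerivAt_id x).const_sub 1)
    have h4 : Real.exp (-(1 - x)⁻¹) * ((1 - x) ^ 2)⁻¹ * -1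
        = -(Real.exp (-(1 - x)⁻¹) * ((1 - x) ^ 2)⁻¹) := by ring
    rw [h4] at h3
    exact h3
  have hd : 0 < expNegInvGlue x + expNegInvGlue (1 - x) := Real.smoothTransition.pos_denom x
  have h5 := h1.div (h1.add h2) hd.ne'
  have h6 : dS x = _ := HasDerivAt.deriv (f := S) h5
  rw [h6]
  have e1 : 0 < expNegInvGlue x := expNegInvGlue.pos_of_pos hx
  have e2 : 0 < expNegInvGlue (1 - x) := expNegInvGlue.pos_of_pos (by linarith)
  have p1 : 0 < Real.exp (-x⁻¹) * (x ^ 2)⁻¹ := by positivity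
  have p2 : 0 < Real.exp (-(1 - x)⁻¹) * ((1 - x) ^ 2)⁻¹ := by
    have : 0 < 1 - x := by linarith
    positivity
  refine div_pos ?_ (by positivity)
  simp only [Pi.add_apply]
  nlinarith [mul_pos p1 e2, mul_pos p2 e1]

theorem dS_bound : ∃ σ : ℝ, 1 ≤ σ ∧ ∀ x, dS x ≤ σ := by
  obtain ⟨C, hC⟩ := (isCompact_Icc (a := (0 : ℝ)) (b := 1)).exists_bound_of_continuousOn
    (f := dS) dS_contDiff.continuous.continuousOn
  refine ⟨max 1 C, le_max_left _ _, fun x => ?_⟩
  by_cases h0 : x ≤ 0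
  · rw [dS_zero_left x h0]; exact le_trans zero_le_one (le_max_left _ _)
  by_cases h1 : 1 ≤ x
  · rw [dS_zero_right x h1]; exact le_trans zero_le_one (le_max_left _ _)
  · have := hC x ⟨(not_le.1 h0).le, (not_le.1 h1).le⟩
    exact le_trans (le_trans (le_abs_self _) this) (le_max_right _ _)

theorem dS_lower (δ : ℝ) (hδ : 0 < δ) :
    ∃ η : ℝ, 0 < η ∧ ∀ x, 1 / 2 ≤ S x → S x ≤ 1 - δ → η ≤ dS x := by
  have hS : Continuous S := S_contDiff.continuous
  have hsub : ∀ x, 1 / 2 ≤ S x → S x ≤ 1 - δ → 0 < x ∧ x < 1 := by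
    intro x h1 h2
    constructor
    · by_contra h
      have : S x = 0 := Real.smoothTransition.zero_of_nonpos (not_lt.1 h)
      rw [this] at h1
      norm_num at h1
    · by_contra h
      have : S x = 1 := Real.smoothTransition.one_of_one_le (not_lt.1 h)
      rw [this] at h2
      linarith
  obtain ⟨K, hK⟩ : ∃ K : Set ℝ, K = {x | 1 / 2 ≤ S x} ∩ {x | S x ≤ 1 - δ} := ⟨_, rfl⟩
  have hKc : IsCompact K := by
    refine isCompact_Icc.of_isClosed_subset (s := Set.Icc (0 : ℝ) 1) ?_ ?_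
    · rw [hK]
      exact (isClosed_le continuous_const hS).inter (isClosed_le hS continuous_const)
    · rintro x hx
      rw [hK] at hx
      have := hsub x hx.1 hx.2
      exact ⟨this.1.le, this.2.le⟩
  rcases K.eq_empty_or_nonempty with he | hne
  · refine ⟨1, one_pos, fun x h1 h2 => ?_⟩
    have : x ∈ K := by rw [hK]; exact ⟨h1, h2⟩
    rw [he] at this
    exact this.elim
  · obtain ⟨x0, hx0, hmin⟩ := hKc.exists_isMinOn hne dS_contDiff.continuous.continuousOn
    rw [hK] at hx0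
    have h3 := hsub x0 hx0.1 hx0.2
    refine ⟨dS x0, dS_pos x0 h3.1 h3.2, fun x h1 h2 => ?_⟩
    refine hmin ?_
    rw [hK]
    exact ⟨h1, h2⟩

theorem t_LW1 : LW1 :=
  ⟨S_contDiff, dS_contDiff, S_hasDerivAt, fun _ => Real.smoothTransition.zero_of_nonpos,
    fun _ => Real.smoothTransition.one_of_one_le, Real.smoothTransition.nonneg,
    Real.smoothTransition.le_one, dS_zero_left, dS_zero_right, dS_nonneg, dS_pos, dS_bound,
    dS_lower⟩

theorem t_LW3 : LW3 := by
  intro G hG c z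
  obtain ⟨L, hL⟩ : ∃ L : ℂ →L[ℝ] ℂ, ∀ w, L w = c * w :=
    ⟨ContinuousLinearMap.mul ℝ ℂ c, fun w => rfl⟩
  have hcomp : (fun w => G (c * w)) = G ∘ L := by
    funext w
    simp [hL]
  have h2 : ∀ u v : ℂ, iteratedFDeriv ℝ 2 (fun w => G (c * w)) z ![u, v]
      = fderiv ℝ (fderiv ℝ G) (c * z) (c * u) (c * v) := by
    intro u v
    rw [hcomp, L.iteratedFDeriv_comp_right hG z (le_refl _),
      ContinuousMultilinearMap.compContinuousLinearMap_apply, iteratedFDeriv_two_apply]
    simp [hL]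
  have h3 : ∀ u v : ℂ, iteratedFDeriv ℝ 2 G (c * z) ![u, v]
      = fderiv ℝ (fderiv ℝ G) (c * z) u v := by
    intro u v
    rw [iteratedFDeriv_two_apply]
    simp
  have hsymm : IsSymmSndFDerivAt ℝ G (c * z) :=
    hG.contDiffAt.isSymmSndFDerivAt (by simp)
  obtain ⟨B, hB⟩ : ∃ B, B = fderiv ℝ (fderiv ℝ G) (c * z) := ⟨_, rfl⟩
  have hs : ∀ u v, B u v = B v u := by
    intro u v
    rw [hB]
    exact hsymm u v
  have hc : c = c.re • (1 : ℂ) + c.im • Complex.I := by
    apply Complex.ext <;> simp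
  have hcI : c * Complex.I = (-c.im) • (1 : ℂ) + c.re • Complex.I := by
    apply Complex.ext <;> simp
  have k11 : B c c = c.re ^ 2 * B 1 1 + 2 * (c.re * c.im) * B 1 Complex.I
      + c.im ^ 2 * B Complex.I Complex.I := by
    conv_lhs => rw [hc]
    simp only [map_add, map_smul, add_apply, smul_apply,
      smul_eq_mul, hs Complex.I 1]
    ring
  have kII : B (c * Complex.I) (c * Complex.I) = c.im ^ 2 * B 1 1
      - 2 * (c.re * c.im) * B 1 Complex.I + c.re ^ 2 * B Complex.I Complex.I := by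
    rw [hcI]
    simp only [map_add, map_smul, add_apply, smul_apply,
      smul_eq_mul, hs Complex.I 1]
    ring
  have k1I : B c (c * Complex.I) = -(c.re * c.im) * B 1 1
      + (c.re ^ 2 - c.im ^ 2) * B 1 Complex.I + c.re * c.im * B Complex.I Complex.I := by
    rw [hcI]
    conv_lhs => rw [hc]
    simp only [map_add, map_smul, add_apply, smul_apply,
      smul_eq_mul, hs Complex.I 1]
    simp
    ring
  unfold Q
  rw [h2, h2, h2, h3, h3, h3, ← hB, mul_one, k11, kII, k1I]
  have hcc : starRingEnd ℂ c = (c.re : ℂ) - (c.im : ℂ) * Complex.I := by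
    apply Complex.ext <;> simp
  rw [hcc]
  push_cast
  ring_nf
  simp only [Complex.I_sq, show Complex.I ^ 3 = -Complex.I by
    rw [show (3 : ℕ) = 2 + 1 from rfl, pow_succ, Complex.I_sq]; ring]
  ring

end Pool.Agent.W2helper85.LW
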